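import Pool.Agent.helper95.SP.SpecCH
import Pool.Agent.helper38.DP.EXT

set_option autoImplicit false

namespace TP.K

open DP MeasureTheory

theorem SEP_zero (h0 : TP.Bzero_stmt) (F : Set (V → Bool)) (A : Set V) (hF : TP.Loc F A) :
    Q (fun _ => 0) F F = Pr F := by
  rw [h0 (fun _ => 0) F F A hF hF (fun _ _ => rfl), Set.inter_self]

theorem SEP (hSEPO : TP.SEPO_stmt) (hLB : TP.LB_stmt) (hFA : DP.FA_stmt) (hAM : DP.AM_stmt)
    (hGXL : TP.GXL_stmt) (hGXF : TP.GXF_stmt) (hB0 : TP.Bzero_stmt) : SEP_stmt := by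
  obtain ⟨b₀, hb₀, iL, hL⟩ := hLB
  obtain ⟨C, hC, iO, hO⟩ := hSEPO b₀ hb₀
  have hpow : ∀ {i k : ℕ}, i < k → 2 ^ i < 2 ^ k := fun h => Nat.pow_lt_pow_right (by norm_num) h
  have hpow' : ∀ {i k : ℕ}, i ≤ k → 2 ^ i ≤ 2 ^ k := fun h => Nat.pow_le_pow_right (by norm_num) h
  have hpos : ∀ i : ℕ, 1 ≤ 2 ^ i := fun i => Nat.one_le_two_pow
  have hρ : Profile (fun _ => (0 : ℝ)) := fun _ => ⟨le_rfl, zero_le_one⟩
  refine ⟨C, hC, iO + iL + 1, ?_⟩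
  intro x t i hx ht hti
  have hFT : ∀ (b : ℕ), t < b →
      ∀ c, Fam c 4 true x (2 ^ b) (Dfree true x (2 ^ t)) ↔ ar 4 c x (2 ^ t) (2 ^ b) :=
    fun b hb c => (hFA c 4 x (2 ^ t) (2 ^ b) (Or.inr rfl) hx (hpos t) (hpow hb)).1
  have h1 := hO 4 (fun _ => 0) x (Dfree true x (2 ^ t)) (t + 1) (Or.inr rfl) hρ hx (by omega)
    (EXT_okT x _ _ (hpow' (by omega))) (fun c i hi h => by
      rw [hFT (i + 1) (by omega)] at h
      rw [hFT i (by omega)]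
      exact hAM c 4 x _ _ _ _ (Or.inr rfl) le_rfl (hpow' (by omega)) (hpow' (by omega)) h)
    (hL 4 (fun _ => 0) x t (Or.inr rfl) hρ hx (by omega)).1 i (by omega)
  rw [SEP_zero hB0 _ _ (hGXF 4 true x (2 ^ i) (Dfree true x (2 ^ t)) (Or.inl rfl))] at h1
  have hstd : TP.Loc (Ev fun c => Std c 4 true x (2 ^ (i + 1)) (Dfree true x (2 ^ t)))
      (HS true x (2 ^ (i + 1)) ∪ HS true x (2 ^ (i + 1))) := by
    have e : (Ev fun c => Std c 4 true x (2 ^ (i + 1)) (Dfree true x (2 ^ t))) =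
        (Ev fun c => MrkC c 4 true x (2 ^ (i + 1)) (Dfree true x (2 ^ t)) (zpt x (2 ^ (i + 1)))
          (2 ^ (i + 1) / 64) (2 ^ (i + 1) / 8) true) ∩
        (Ev fun c => MrkC c 4 true x (2 ^ (i + 1)) (Dfree true x (2 ^ t)) (zpt x (2 ^ (i + 1)))
          (2 ^ (i + 1) / 64) (2 ^ (i + 1) / 8) false) := rfl
    rw [e]
    exact TP.Loc.inter
      ((hGXL 4 true x (2 ^ (i + 1)) (Dfree true x (2 ^ t)) (zpt x (2 ^ (i + 1)))
          (2 ^ (i + 1) / 64) (2 ^ (i + 1) / 8) true (Or.inl rfl)).1.mono Set.sdiff_subset)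
      ((hGXL 4 true x (2 ^ (i + 1)) (Dfree true x (2 ^ t)) (zpt x (2 ^ (i + 1)))
          (2 ^ (i + 1) / 64) (2 ^ (i + 1) / 8) false (Or.inl rfl)).1.mono Set.sdiff_subset)
  rw [SEP_zero hB0 _ _ hstd] at h1
  have h2 : F4 x t i = Ev fun c => Fam c 4 true x (2 ^ i) (Dfree true x (2 ^ t)) := by
    unfold F4 Ev
    ext b
    exact (hFT i (by omega) (TP.col b)).symm
  rw [h2]
  exact h1

end TP.K
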